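import Pool.Agent.Q70.KM.Defs

/-!
# The surfaces `(C × D) / (σ × τ)` for cyclic coverings `C`, `D` of the projective line: definitions
-/

set_option autoImplicit false

namespace Pool.Agent.Q70.KM

open FF Pool.Agent.Q70.CH

/-- The point `σ^i(P)`. -/
noncomputable def rot {k : Type} [Field k] {K : Type} [Field K] [Algebra k K] (σ : K ≃ₐ[k] K)
    (i : ℕ) (P : Place k K) : Place k K :=
  (fun R : Place k K => R.comp σ)^[i] P

/-- The class in `Pic(C) ⊗ ℚ` of the sum of the points `P, σ(P), …, σ^(m-1)(P)`. -/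
noncomputable def orbitSum {k : Type} [Field k] [CharZero k] {K : Type} [Field K] [Algebra k K]
    (m : ℕ) (σ : K ≃ₐ[k] K) (P : Place k K) : PicQ k K :=
  ∑ i ∈ Finset.range m, pt (rot σ i P)

/-- The automorphism `σ` with `σ^m = 1` makes `C` a cyclic covering of the projective line: the
sum of the points `P, σ(P), …, σ^(m-1)(P)` has the same class in `Pic(C) ⊗ ℚ` for all points `P`
of `C`. -/
def CyclicCover {k : Type} [Field k] [CharZero k] {K : Type} [Field K] [Algebra k K]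
    (m : ℕ) (σ : K ≃ₐ[k] K) : Prop :=
  0 < m ∧ σ ^ m = 1 ∧ ∀ P P' : Place k K, orbitSum m σ P = orbitSum m σ P'

section

variable {k : Type} [Field k] {K : Type} [Field K] [Algebra k K] {L : Type} [Field L] [Algebra k L]

/-- The identifications `(P, Q) ∼ (σ(P), τ(Q))` of points of `C × D`. -/
inductive RelX (σ : K ≃ₐ[k] K) (τ : L ≃ₐ[k] L) :
    Place k K × Place k L → Place k K × Place k L → Prop
  | act (P : Place k K) (Q : Place k L) : RelX σ τ (P, Q) (P.comp σ, Q.comp τ)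

/-- The points of the quotient surface `X = (C × D) / (σ × τ)`. -/
def Surf (σ : K ≃ₐ[k] K) (τ : L ≃ₐ[k] L) : Type := Quot (RelX σ τ)

/-- The image in `X` of the point `x` of `C × D`. -/
def quoX (σ : K ≃ₐ[k] K) (τ : L ≃ₐ[k] L) (x : Place k K × Place k L) : Surf σ τ :=
  Quot.mk (RelX σ τ) x

end

/-- The zero-cycles on `C × D` rationally equivalent to zero (rational coefficients). -/
noncomputable def rat3 (k : Type) [Field k] [CharZero k] (K : Type) [Field K] [Algebra k K]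
    (L : Type) [Field L] [Algebra k L] : Submodule ℚ (Place k K × Place k L →₀ ℚ) :=
  ratTriv ((curve K).prod (curve L) : Sp k)

variable {k : Type} [Field k] [CharZero k] {K : Type} [Field K] [Algebra k K]
  {L : Type} [Field L] [Algebra k L]

/-- The zero-cycles on `X` rationally equivalent to zero: the push-forwards of the zero-cycles on
`C × D` rationally equivalent to zero. -/
noncomputable def ratX (σ : K ≃ₐ[k] K) (τ : L ≃ₐ[k] L) : Submodule ℚ (Surf σ τ →₀ ℚ) :=
  (rat3 k K L).map (Finsupp.lmapDomain ℚ ℚ (quoX σ τ))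

/-- `CH_0(X) ⊗ ℚ`. -/
def CHX (σ : K ≃ₐ[k] K) (τ : L ≃ₐ[k] L) : Type := (Surf σ τ →₀ ℚ) ⧸ ratX σ τ

noncomputable instance (σ : K ≃ₐ[k] K) (τ : L ≃ₐ[k] L) : AddCommGroup (CHX σ τ) :=
  Submodule.Quotient.addCommGroup (ratX σ τ)

noncomputable instance (σ : K ≃ₐ[k] K) (τ : L ≃ₐ[k] L) : Module ℚ (CHX σ τ) :=
  Submodule.Quotient.module (ratX σ τ)

/-- The class of a zero-cycle in `CH_0(X) ⊗ ℚ`. -/
noncomputable def clX (σ : K ≃ₐ[k] K) (τ : L ≃ₐ[k] L) : (Surf σ τ →₀ ℚ) →ₗ[ℚ] CHX σ τ :=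
  (ratX σ τ).mkQ

/-- The class in `CH_0(X) ⊗ ℚ` of the image of the point `x` of `C × D`. -/
noncomputable def pointX (σ : K ≃ₐ[k] K) (τ : L ≃ₐ[k] L) (x : Place k K × Place k L) : CHX σ τ :=
  clX σ τ (Finsupp.single (quoX σ τ x) 1)

/-- The image in `X` of the point `x` of `C × D` lies on a rational curve on `X`: there are a smooth
projective curve `E` with an automorphism `ρ` that makes it a cyclic covering of the projective
line, and a morphism `s : E → C × D` such that `s(R)` and `s(ρ(R))` have the same image in `X`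
(so that the image of `E` in `X` is a rational curve or a point), with `s(R) = x` for a point `R`
of `E`, and `s(R)` in `{o} × D` or in `C × {o'}` for another one (this always exists). -/
def OnRationalCurve (σ : K ≃ₐ[k] K) (τ : L ≃ₐ[k] L) (o : Place k K) (o' : Place k L)
    (x : Place k K × Place k L) : Prop :=
  ∃ (E : Type) (_ : Field E) (_ : Algebra k E) (_ : IsFF k E) (m : ℕ) (ρ : E ≃ₐ[k] E)
    (s : Place k E → Place k K × Place k L),
    CyclicCover m ρ ∧ s ∈ ((curve K).prod (curve L) : Sp k).mor E ∧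
      (∀ R, quoX σ τ (s (R.comp ρ)) = quoX σ τ (s R)) ∧
      (∃ R, s R = x) ∧ ∃ R, (s R).1 = o ∨ (s R).2 = o'

lemma isMap_comp (σ : K ≃ₐ[k] K) :
    IsMap (curve (k := k) K) (curve K) (fun P : Place k K => P.comp σ) := by
  intro B _ _ _ s hs
  rcases hs with ⟨P, hP⟩ | ⟨φ, hφ⟩
  · exact Or.inl ⟨P.comp σ, fun Q => congrArg (fun R : Place k K => R.comp σ) (hP Q)⟩
  · refine Or.inr ⟨φ.comp σ.toAlgHom, fun Q => ?_⟩
    obtain ⟨e, he, h⟩ := hφ Q
    exact ⟨e, he, fun f => h (σ f)⟩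

/-- The operation of `σ` on `Pic(C) ⊗ ℚ`. -/
noncomputable def act (σ : K ≃ₐ[k] K) : PicQ k K →ₗ[ℚ] PicQ k K :=
  (rat1 k K).mapQ (rat1 k K) (Finsupp.lmapDomain ℚ ℚ (fun P : Place k K => P.comp σ))
    (fun _ hx => mapDomain_mem (X := curve (k := k) K) (Y := curve (k := k) K) (isMap_comp σ) hx)

variable {V : Type} [AddCommGroup V] [Module ℚ V] {V' : Type} [AddCommGroup V'] [Module ℚ V']

/-- The image in `X` of the zero-cycle `a × b` on `C × D`, as a bilinear map of the zero-cycles `a`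
on `C` and `b` on `D`: for points `P` and `Q` it is the image of the point `(P, Q)`. -/
noncomputable def crossX (σ : K ≃ₐ[k] K) (τ : L ≃ₐ[k] L) :
    (Place k K →₀ ℚ) →ₗ[ℚ] (Place k L →₀ ℚ) →ₗ[ℚ] (Surf σ τ →₀ ℚ) :=
  Finsupp.linearCombination ℚ (fun P => Finsupp.linearCombination ℚ
    (fun Q => Finsupp.single (quoX σ τ (P, Q)) 1))

/-- The space of the classes in `CH_0(X) ⊗ ℚ` of the images of the zero-cycles `a × b`, where `a` is
a zero-cycle of degree zero on `C` with class in the subspace `V` of `Pic(C) ⊗ ℚ` (the image of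
`ι`), and `b` a zero-cycle of degree zero on `D` with class in the subspace `V'` of
`Pic(D) ⊗ ℚ`. -/
noncomputable def spaceX (σ : K ≃ₐ[k] K) (τ : L ≃ₐ[k] L)
    (ι : V →ₗ[ℚ] PicQ k K) (ι' : V' →ₗ[ℚ] PicQ k L) : Submodule ℚ (CHX σ τ) :=
  Submodule.span ℚ {z | ∃ (a : Place k K →₀ ℚ) (b : Place k L →₀ ℚ),
    (a.sum fun _ c => c) = 0 ∧ (b.sum fun _ c => c) = 0 ∧
    (∃ v, ι v = mkP a) ∧ (∃ w, ι' w = mkP b) ∧ z = clX σ τ (crossX σ τ a b)}

/-- The bilinear form `b` on `V × V'` is invariant under `σ × τ`, and it vanishes at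
`(P - o, Q - o')` for all points `(P, Q)` over `V × V'` whose image in `X` lies on a rational
curve on `X`. -/
structure IsInvForm (σ : K ≃ₐ[k] K) (τ : L ≃ₐ[k] L) (o : Place k K) (o' : Place k L)
    (ι : V →ₗ[ℚ] PicQ k K) (ι' : V' →ₗ[ℚ] PicQ k L) (b : V →ₗ[ℚ] V' →ₗ[ℚ] ℚ) : Prop where
  inv : ∀ (x x' : V) (y y' : V'), ι x' = act σ (ι x) → ι' y' = act τ (ι' y) → b x' y' = b x y
  vanish : ∀ (x : V) (y : V') (P : Place k K) (Q : Place k L), ι x = dif o P →
    ι' y = dif o' Q → OnRationalCurve σ τ o o' (P, Q) → b x y = 0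

/-- The space of these bilinear forms. -/
def InvForms (σ : K ≃ₐ[k] K) (τ : L ≃ₐ[k] L) (o : Place k K) (o' : Place k L)
    (ι : V →ₗ[ℚ] PicQ k K) (ι' : V' →ₗ[ℚ] PicQ k L) : Submodule ℚ (V →ₗ[ℚ] V' →ₗ[ℚ] ℚ) :=
  Submodule.span ℚ {b | IsInvForm σ τ o o' ι ι' b}

end Pool.Agent.Q70.KM
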