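import Pool.Agent.Q70.KM.Defs

/-!
# Zero-cycles on the surface `(C × C) / G` of a hyperelliptic curve `C`
-/

set_option autoImplicit false

namespace Pool.Agent.Q70.KM

open FF Pool.Agent.Q70.CH Module

/-- the degree of a zero-cycle -/
noncomputable def dg {A : Type} : (A →₀ ℚ) →ₗ[ℚ] ℚ :=
  Finsupp.linearCombination ℚ (fun _ => (1 : ℚ))

lemma dg_single {A : Type} (a : A) (c : ℚ) : dg (Finsupp.single a c) = c := by
  simp [dg]

lemma dg_mapDomain {A B : Type} (f : A → B) (z : A →₀ ℚ) : dg (z.mapDomain f) = dg z := by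
  have h : (dg (A := B)).comp (Finsupp.lmapDomain ℚ ℚ f) = dg := by
    apply Finsupp.lhom_ext'
    intro a
    apply LinearMap.ext_ring
    simp [dg]
  exact congrArg (fun g => g z) h

lemma dg_eq {A : Type} (z : A →₀ ℚ) : dg z = z.sum fun _ c => c := by
  unfold dg
  rw [Finsupp.linearCombination_apply]
  apply Finsupp.sum_congr
  intro a _
  rw [smul_eq_mul, mul_one]

section

variable {k : Type} [Field k] [CharZero k] [IsAlgClosed k]

lemma dg_qdiv {B : Type} [Field B] [Algebra k B] [IsFF k B] (t : B) :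
    dg (qdiv (k := k) t) = 0 := by
  have h := ddeg_divisor (k := k) t
  rw [ddeg_eq_sum] at h
  rw [dg_eq]
  unfold qdiv
  rw [Finsupp.sum_mapRange_index (fun _ => rfl)]
  have h2 : ((divisor k t).sum fun _ m => (m : ℚ)) = (((divisor k t).sum fun _ m => m : ℤ) : ℚ) := by
    unfold Finsupp.sum
    push_cast
    rfl
  rw [h2, h]
  simp

lemma dg_ratTriv {X : Sp k} {z : X.pts →₀ ℚ} (hz : z ∈ ratTriv X) : dg z = 0 := by
  have h : ratTriv X ≤ LinearMap.ker (dg (A := X.pts)) := by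
    unfold ratTriv
    rw [Submodule.span_le]
    rintro _ ⟨B, _, _, _, s, hs, t, ht, rfl⟩
    rw [SetLike.mem_coe, LinearMap.mem_ker, dg_mapDomain, dg_qdiv]
  exact h hz

variable {K : Type} [Field K] [Algebra k K]

omit [IsAlgClosed k] in
lemma mk_eq_zero {σ : K ≃ₐ[k] K} {z : Place k K × Place k K →₀ ℚ}
    (hz : z ∈ rat2 k K) :
    mkS σ (z.mapDomain (quo σ)) = 0 :=
  (Submodule.Quotient.mk_eq_zero (ratTrivKum σ)).2 ⟨z, hz, rfl⟩

omit [IsAlgClosed k] in
lemma mkP_surjective : Function.Surjective (mkP (k := k) (K := K)) :=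
  Submodule.mkQ_surjective _

/-- maps from `Pic(C) ⊗ ℚ` -/
noncomputable def liftP {M : Type} [AddCommGroup M] [Module ℚ M]
    (f : (Place k K →₀ ℚ) →ₗ[ℚ] M) (h : ∀ x ∈ rat1 k K, f x = 0) : PicQ k K →ₗ[ℚ] M :=
  (rat1 k K).liftQ f (fun x hx => LinearMap.mem_ker.2 (h x hx))

omit [IsAlgClosed k] in
lemma liftP_mk {M : Type} [AddCommGroup M] [Module ℚ M]
    (f : (Place k K →₀ ℚ) →ₗ[ℚ] M) (h : ∀ x ∈ rat1 k K, f x = 0) (x : Place k K →₀ ℚ) :
    liftP f h (mkP x) = f x := rfl

omit [IsAlgClosed k] in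
lemma point_swap (σ : K ≃ₐ[k] K) (P Q : Place k K) : point σ P Q = point σ Q P := by
  unfold point quo
  rw [Quot.sound (Rel.swap P Q)]

omit [IsAlgClosed k] in
lemma point_inv (σ : K ≃ₐ[k] K) (P Q : Place k K) :
    point σ P Q = point σ (P.comp σ) (Q.comp σ) := by
  unfold point quo
  rw [Quot.sound (Rel.inv P Q)]

/-- the bilinear map on zero-cycles on `C` -/
noncomputable def B0 (σ : K ≃ₐ[k] K) (W : Place k K) :
    (Place k K →₀ ℚ) →ₗ[ℚ] (Place k K →₀ ℚ) →ₗ[ℚ] CH0 σ :=
  Finsupp.linearCombination ℚ (fun P => Finsupp.linearCombination ℚ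
    (fun Q => point σ P Q - point σ W W))

omit [IsAlgClosed k] in
lemma B0_single (σ : K ≃ₐ[k] K) (W P Q : Place k K) :
    B0 σ W (Finsupp.single P 1) (Finsupp.single Q 1) = point σ P Q - point σ W W := by
  simp [B0]

omit [IsAlgClosed k] in
lemma B0_symm (σ : K ≃ₐ[k] K) (W : Place k K) (x y : Place k K →₀ ℚ) :
    B0 σ W x y = B0 σ W y x := by
  have h : B0 σ W = (B0 σ W).flip := by
    apply Finsupp.lhom_ext'
    intro P
    apply LinearMap.ext_ring
    apply Finsupp.lhom_ext'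
    intro Q
    apply LinearMap.ext_ring
    change B0 σ W (Finsupp.single P 1) (Finsupp.single Q 1) =
      B0 σ W (Finsupp.single Q 1) (Finsupp.single P 1)
    rw [B0_single, B0_single, point_swap]
  exact congrArg (fun f => f x y) h

omit [IsAlgClosed k] in
lemma map_rat {f : Place k K → Place k K × Place k K}
    (hf : IsMap (curve (k := k) K) ((curve K).prod (curve K)) f) {z : Place k K →₀ ℚ}
    (hz : z ∈ rat1 k K) : z.mapDomain f ∈ rat2 k K :=
  mapDomain_mem (X := curve (k := k) K) (Y := (curve (k := k) K).prod (curve K)) hf hz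

lemma dg_rat1 {z : Place k K →₀ ℚ} (hz : z ∈ rat1 k K) : dg z = 0 :=
  dg_ratTriv (X := curve (k := k) K) hz

omit [CharZero k] [IsAlgClosed k] in
lemma isMap_right (Q : Place k K) : IsMap (curve (k := k) K) ((curve K).prod (curve K))
    (fun P => (P, Q)) := by
  intro B _ _ _ s hs
  exact ⟨hs, Or.inl ⟨Q, fun _ => rfl⟩⟩

omit [CharZero k] [IsAlgClosed k] in
lemma isMap_left (Q : Place k K) : IsMap (curve (k := k) K) ((curve K).prod (curve K))
    (fun P => (Q, P)) := by
  intro B _ _ _ s hs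
  exact ⟨Or.inl ⟨Q, fun _ => rfl⟩, hs⟩

omit [CharZero k] [IsAlgClosed k] in
lemma isMap_diag : IsMap (curve (k := k) K) ((curve K).prod (curve K))
    (fun P => (P, P)) := by
  intro B _ _ _ s hs
  exact ⟨hs, hs⟩

/-- the push-forward from `C` to `S` along `P ↦ (P, Q)` -/
noncomputable def pushL (σ : K ≃ₐ[k] K) (Q : Place k K) : (Place k K →₀ ℚ) →ₗ[ℚ] CH0 σ :=
  (mkS σ).comp (Finsupp.lmapDomain ℚ ℚ (fun P => quo σ (P, Q)))

omit [IsAlgClosed k] in
lemma pushL_single (σ : K ≃ₐ[k] K) (P Q : Place k K) :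
    pushL σ Q (Finsupp.single P 1) = point σ P Q := by
  unfold pushL point
  rw [LinearMap.comp_apply, Finsupp.lmapDomain_apply, Finsupp.mapDomain_single]

omit [IsAlgClosed k] in
lemma pushL_triv (σ : K ≃ₐ[k] K) (Q : Place k K) {x : Place k K →₀ ℚ}
    (hx : x ∈ rat1 k K) : pushL σ Q x = 0 := by
  have h := mk_eq_zero (σ := σ) (map_rat (isMap_right Q) hx)
  have h1 : (x.mapDomain (fun P => (P, Q))).mapDomain (quo σ) =
      x.mapDomain (fun P => quo σ (P, Q)) := by
    rw [← Finsupp.mapDomain_comp]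
    rfl
  have h2 : mkS σ (x.mapDomain (fun P => quo σ (P, Q))) = 0 := by
    rw [← h1]
    exact h
  exact h2

lemma B0_triv (σ : K ≃ₐ[k] K) (W : Place k K) {x : Place k K →₀ ℚ}
    (hx : x ∈ rat1 k K) : B0 σ W x = 0 := by
  apply Finsupp.lhom_ext'
  intro Q
  apply LinearMap.ext_ring
  change B0 σ W x (Finsupp.single Q 1) = 0
  have h : (B0 σ W).flip (Finsupp.single Q 1) =
      pushL σ Q - (dg.smulRight (point σ W W)) := by
    apply Finsupp.lhom_ext'
    intro P
    apply LinearMap.ext_ring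
    change B0 σ W (Finsupp.single P 1) (Finsupp.single Q 1) = pushL σ Q (Finsupp.single P 1) -
      dg (Finsupp.single P 1) • point σ W W
    rw [B0_single, pushL_single, dg_single, one_smul]
  have h1 : B0 σ W x (Finsupp.single Q 1) = pushL σ Q x - dg x • point σ W W :=
    congrArg (fun f => f x) h
  have h2 : dg x = 0 := dg_rat1 hx
  rw [h1, pushL_triv σ Q hx, h2, zero_smul, sub_zero]

/-- the bilinear map on `Pic(C) ⊗ ℚ` -/
noncomputable def bil (σ : K ≃ₐ[k] K) (W : Place k K) :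
    PicQ k K →ₗ[ℚ] PicQ k K →ₗ[ℚ] CH0 σ :=
  liftP ((liftP (B0 σ W) (fun _ hx => B0_triv σ W hx)).flip) (by
      intro y hy
      apply LinearMap.ext
      intro x
      obtain ⟨x, rfl⟩ := mkP_surjective x
      rw [LinearMap.flip_apply, liftP_mk, B0_symm, B0_triv σ W hy, LinearMap.zero_apply,
        LinearMap.zero_apply])

lemma bil_mk (σ : K ≃ₐ[k] K) (W : Place k K) (x y : Place k K →₀ ℚ) :
    bil σ W (mkP x) (mkP y) = B0 σ W y x := rfl

lemma bil_symm (σ : K ≃ₐ[k] K) (W : Place k K) (x y : PicQ k K) :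
    bil σ W x y = bil σ W y x := by
  obtain ⟨x, rfl⟩ := mkP_surjective x
  obtain ⟨y, rfl⟩ := mkP_surjective y
  rw [bil_mk, bil_mk, B0_symm]

lemma bil_pt (σ : K ≃ₐ[k] K) (W P Q : Place k K) :
    bil σ W (pt P) (pt Q) = point σ P Q - point σ W W := by
  unfold pt
  rw [bil_mk, B0_symm, B0_single]

variable [IsFF k K]

omit [IsAlgClosed k] in
lemma hyp_mem {σ : K ≃ₐ[k] K} {W : Place k K} (h : Hyperelliptic σ W) (P : Place k K) :
    (Finsupp.single P 1 + Finsupp.single (P.comp σ) 1 - Finsupp.single W 2 : Place k K →₀ ℚ) ∈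
      rat1 k K := by
  obtain ⟨t, ht, hd⟩ := h P
  have h0 : (qdiv (k := k) t).mapDomain (fun Q : Place k K => Q) ∈ ratTriv (curve (k := k) K) := by
    unfold ratTriv
    exact Submodule.subset_span ⟨K, inferInstance, inferInstance, inferInstance, fun Q => Q,
      Or.inr ⟨AlgHom.id k K, fun Q => ⟨1, one_pos, fun f => by simp⟩⟩, t, ht, rfl⟩
  have h1 : (qdiv (k := k) t).mapDomain (fun Q : Place k K => Q) = qdiv (k := k) t :=
    Finsupp.mapDomain_id
  have h2 : (Finsupp.single P 1 + Finsupp.single (P.comp σ) 1 - Finsupp.single W 2 :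
      Place k K →₀ ℚ) = qdiv (k := k) t := by
    unfold qdiv
    rw [hd]
    refine Finsupp.ext fun Q => ?_
    simp only [Finsupp.mapRange_apply, Finsupp.coe_add, Finsupp.coe_sub, Pi.add_apply,
      Pi.sub_apply, Int.cast_add, Int.cast_sub]
    classical
    simp only [Finsupp.single_apply]
    push_cast
    rfl
  rw [h2, ← h1]
  exact h0

omit [IsAlgClosed k] in
lemma push {σ : K ≃ₐ[k] K} {W : Place k K} (h : Hyperelliptic σ W) (P : Place k K)
    (f : Place k K → Place k K × Place k K)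
    (hf : IsMap (curve (k := k) K) ((curve K).prod (curve K)) f) :
    mkS σ (Finsupp.single (quo σ (f P)) 1) + mkS σ (Finsupp.single (quo σ (f (P.comp σ))) 1) =
      (2 : ℚ) • mkS σ (Finsupp.single (quo σ (f W)) 1) := by
  have h1 := mk_eq_zero (σ := σ) (map_rat hf (hyp_mem h P))
  have h2 : ((Finsupp.single P 1 + Finsupp.single (P.comp σ) 1 - Finsupp.single W 2 :
      Place k K →₀ ℚ).mapDomain f).mapDomain (quo σ) =
      Finsupp.single (quo σ (f P)) 1 +
        Finsupp.single (quo σ (f (P.comp σ))) 1 -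
        (2 : ℚ) • Finsupp.single (quo σ (f W)) 1 := by
    change (Finsupp.lmapDomain ℚ ℚ (quo σ)) ((Finsupp.lmapDomain ℚ ℚ f) _) = _
    simp only [map_sub, map_add, Finsupp.lmapDomain_apply, Finsupp.mapDomain_single,
      Finsupp.smul_single, smul_eq_mul, mul_one]
  rw [h2] at h1
  rw [map_sub, map_add, map_smul, sub_eq_zero] at h1
  exact h1

omit [IsAlgClosed k] in
lemma point_W {σ : K ≃ₐ[k] K} {W : Place k K} (h : Hyperelliptic σ W) (P : Place k K) :
    point σ P W = point σ W W := by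
  have h1 : point σ P W + point σ (P.comp σ) W = (2 : ℚ) • point σ W W :=
    push h P (fun P => (P, W)) (isMap_right W)
  have h2 : point σ (P.comp σ) W + point σ (P.comp σ) (W.comp σ) =
      (2 : ℚ) • point σ (P.comp σ) W :=
    push h W (fun Q => (P.comp σ, Q)) (isMap_left (P.comp σ))
  rw [← point_inv, two_smul] at h2
  have h3 : point σ P W = point σ (P.comp σ) W := add_left_cancel h2
  rw [← h3, ← two_smul ℚ] at h1
  exact smul_right_injective _ (two_ne_zero) h1

omit [IsAlgClosed k] in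
lemma point_diag {σ : K ≃ₐ[k] K} {W : Place k K} (h : Hyperelliptic σ W) (P : Place k K) :
    point σ P P = point σ W W := by
  have h1 : point σ P P + point σ (P.comp σ) (P.comp σ) = (2 : ℚ) • point σ W W :=
    push h P (fun P => (P, P)) isMap_diag
  rw [← point_inv, ← two_smul ℚ] at h1
  exact smul_right_injective _ (two_ne_zero) h1

lemma bil_W {σ : K ≃ₐ[k] K} {W : Place k K} (h : Hyperelliptic σ W) (P : Place k K) :
    bil σ W (pt P) (pt W) = 0 := by
  rw [bil_pt, point_W h, sub_self]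

lemma bil_W' {σ : K ≃ₐ[k] K} {W : Place k K} (h : Hyperelliptic σ W) (P : Place k K) :
    bil σ W (pt W) (pt P) = 0 := by
  rw [bil_symm, bil_W h]

lemma bil_diag {σ : K ≃ₐ[k] K} {W : Place k K} (h : Hyperelliptic σ W) (P : Place k K) :
    bil σ W (pt P) (pt P) = 0 := by
  rw [bil_pt, point_diag h, sub_self]

lemma bil_self {σ : K ≃ₐ[k] K} {W : Place k K} (h : Hyperelliptic σ W) (P : Place k K) :
    bil σ W (dif W P) (dif W P) = 0 := by
  unfold dif
  simp only [map_sub, LinearMap.sub_apply, bil_diag h, bil_W h, bil_W' h, sub_self]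

lemma bil_point {σ : K ≃ₐ[k] K} {W : Place k K} (h : Hyperelliptic σ W) (P Q : Place k K) :
    bil σ W (dif W P + dif W Q) (dif W P + dif W Q) = (2 : ℚ) • pointDif σ W P Q := by
  unfold dif
  simp only [map_sub, map_add, LinearMap.sub_apply, LinearMap.add_apply,
    bil_diag h, bil_W h, bil_W' h, sub_zero, zero_add, add_zero]
  rw [bil_symm σ W (pt Q) (pt P), bil_pt, two_smul]
  rfl

variable {V : Type} [AddCommGroup V] [Module ℚ V]

/-- the bilinear map on `V` -/
noncomputable def bV (σ : K ≃ₐ[k] K) (W : Place k K) (ι : V →ₗ[ℚ] PicQ k K) :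
    V →ₗ[ℚ] V →ₗ[ℚ] CH0 σ := (bil σ W).compl₁₂ ι ι

/-- the space spanned by its values -/
noncomputable def MV (σ : K ≃ₐ[k] K) (W : Place k K) (ι : V →ₗ[ℚ] PicQ k K) :
    Submodule ℚ (CH0 σ) := Submodule.map₂ (bV σ W ι) ⊤ ⊤

omit [IsFF k K] in
lemma bV_mem (σ : K ≃ₐ[k] K) (W : Place k K) (ι : V →ₗ[ℚ] PicQ k K) (x y : V) :
    bV σ W ι x y ∈ MV σ W ι := Submodule.apply_mem_map₂ _ Submodule.mem_top Submodule.mem_top

lemma pointSpace_le {σ : K ≃ₐ[k] K} {W : Place k K} (h : Hyperelliptic σ W)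
    (ι : V →ₗ[ℚ] PicQ k K) : pointSpace σ W ι ≤ MV σ W ι := by
  unfold pointSpace
  rw [Submodule.span_le]
  rintro _ ⟨P, Q, ⟨v, hv⟩, rfl⟩
  have h1 := bV_mem σ W ι v v
  change bil σ W (ι v) (ι v) ∈ _ at h1
  rw [hv, bil_point h] at h1
  exact (Submodule.smul_mem_iff _ two_ne_zero).1 h1

/-- the bilinear map with values in the span -/
noncomputable def bM (σ : K ≃ₐ[k] K) (W : Place k K) (ι : V →ₗ[ℚ] PicQ k K) :
    V →ₗ[ℚ] V →ₗ[ℚ] MV σ W ι :=
  LinearMap.mk₂ ℚ (fun x y => ⟨bV σ W ι x y, bV_mem σ W ι x y⟩)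
    (fun x x' y => Subtype.ext (by simp)) (fun c x y => Subtype.ext (by simp))
    (fun x y y' => Subtype.ext (by simp)) (fun c x y => Subtype.ext (by simp))

/-- the quadratic form of a functional -/
noncomputable def phi {σ : K ≃ₐ[k] K} {W : Place k K} (h : Hyperelliptic σ W)
    (ι : V →ₗ[ℚ] PicQ k K) : Dual ℚ (MV σ W ι) →ₗ[ℚ] Forms W ι where
  toFun l := ⟨(bM σ W ι).compr₂ l, Submodule.subset_span (by
    refine ⟨fun x y => ?_, fun v P hv => ?_⟩
    · change l (bM σ W ι x y) = l (bM σ W ι y x)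
      congr 1
      exact Subtype.ext (bil_symm σ W (ι x) (ι y))
    · change l (bM σ W ι v v) = 0
      have : bM σ W ι v v = 0 := Subtype.ext (by
        change bil σ W (ι v) (ι v) = 0
        rw [hv, bil_self h])
      rw [this, map_zero])⟩
  map_add' l l' := rfl
  map_smul' c l := rfl

lemma phi_injective {σ : K ≃ₐ[k] K} {W : Place k K} (h : Hyperelliptic σ W)
    (ι : V →ₗ[ℚ] PicQ k K) : Function.Injective (phi h ι) := by
  rw [injective_iff_map_eq_zero]
  intro l hl
  have h1 : ∀ x y : V, l ⟨bV σ W ι x y, bV_mem σ W ι x y⟩ = 0 := by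
    intro x y
    have h2 := congrArg (fun b : Forms W ι => (b : V →ₗ[ℚ] V →ₗ[ℚ] ℚ) x y) hl
    exact h2
  have h3 : MV σ W ι ≤ (LinearMap.ker l).map (MV σ W ι).subtype := by
    conv_lhs => unfold MV
    rw [Submodule.map₂_le]
    intro x _ y _
    exact ⟨⟨bV σ W ι x y, bV_mem σ W ι x y⟩, h1 x y, rfl⟩
  apply LinearMap.ext
  intro m
  obtain ⟨m', hm', he⟩ := h3 m.2
  have : m' = m := Subtype.ext he
  rw [← this]
  exact hm'

theorem main {σ : K ≃ₐ[k] K} {W : Place k K} (h : Hyperelliptic σ W)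
    [FiniteDimensional ℚ V] (ι : V →ₗ[ℚ] PicQ k K) :
    FiniteDimensional ℚ (pointSpace σ W ι) ∧
      finrank ℚ (pointSpace σ W ι) ≤ finrank ℚ (Forms W ι) := by
  have hV : (⊤ : Submodule ℚ V).FG := Module.finite_def.1 inferInstance
  have hM : FiniteDimensional ℚ (MV σ W ι) :=
    (Submodule.fg_iff_finiteDimensional _).1 (Submodule.FG.map₂ _ hV hV)
  have hle := pointSpace_le h ι
  have h1 : FiniteDimensional ℚ (pointSpace σ W ι) :=
    Submodule.finiteDimensional_of_le hle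
  refine ⟨h1, (Submodule.finrank_mono hle).trans ?_⟩
  rw [← Subspace.dual_finrank_eq]
  exact LinearMap.finrank_le_finrank_of_injective (phi_injective h ι)

end

end Pool.Agent.Q70.KM
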