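import Pool.Agent.Q70.CH.Prod2

/-!
# The surface `(C × C) / G` of a hyperelliptic curve `C`: definitions
-/

set_option autoImplicit false

namespace Pool.Agent.Q70.KM

open FF Pool.Agent.Q70.CH

/-- The zero-cycles on the curve `C` with function field `K` that are rationally equivalent to
zero (rational coefficients). -/
noncomputable def rat1 (k : Type) [Field k] [CharZero k] (K : Type) [Field K] [Algebra k K] :
    Submodule ℚ (Place k K →₀ ℚ) := ratTriv (curve K : Sp k)

/-- The zero-cycles on `C × C` that are rationally equivalent to zero (rational coefficients). -/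
noncomputable def rat2 (k : Type) [Field k] [CharZero k] (K : Type) [Field K] [Algebra k K] :
    Submodule ℚ (Place k K × Place k K →₀ ℚ) := ratTriv ((curve K).prod (curve K) : Sp k)

/-- The group `Pic(C) ⊗ ℚ` of the curve `C` with function field `K`: zero-cycles with rational
coefficients modulo rational equivalence. -/
def PicQ (k : Type) [Field k] [CharZero k] (K : Type) [Field K] [Algebra k K] : Type :=
  (Place k K →₀ ℚ) ⧸ rat1 k K

noncomputable instance (k : Type) [Field k] [CharZero k] (K : Type) [Field K] [Algebra k K] :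
    AddCommGroup (PicQ k K) := Submodule.Quotient.addCommGroup (rat1 k K)

noncomputable instance (k : Type) [Field k] [CharZero k] (K : Type) [Field K] [Algebra k K] :
    Module ℚ (PicQ k K) := Submodule.Quotient.module (rat1 k K)

/-- The automorphism `σ` of the curve `C` is the hyperelliptic involution (`-1` if `C` is an
elliptic curve) and `W` is a Weierstrass point (the origin): for every point `P` the divisor
`P + σ(P)` is linearly equivalent to `2 W`. -/
def Hyperelliptic {k : Type} [Field k] [CharZero k] {K : Type} [Field K] [Algebra k K]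
    [IsFF k K] (σ : K ≃ₐ[k] K) (W : Place k K) : Prop :=
  ∀ P : Place k K, ∃ t : K, t ≠ 0 ∧
    divisor k t = Finsupp.single P 1 + Finsupp.single (P.comp σ) 1 - Finsupp.single W 2

/-- The identifications `(P, Q) ∼ (Q, P) ∼ (σ(Q), σ(P))` of points of `C × C`. -/
inductive Rel {k : Type} [Field k] {K : Type} [Field K] [Algebra k K] (σ : K ≃ₐ[k] K) :
    Place k K × Place k K → Place k K × Place k K → Prop
  | swap (P Q : Place k K) : Rel σ (P, Q) (Q, P)
  | inv (P Q : Place k K) : Rel σ (P, Q) (P.comp σ, Q.comp σ)

/-- The points of the quotient surface `S = (C × C) / G`, where the group `G` of order four is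
generated by the exchange of the factors and `σ × σ`. If `C` has the genus two, it is birational to
the Kummer surface of the Jacobian of `C`, a K3 surface. -/
def Kum {k : Type} [Field k] {K : Type} [Field K] [Algebra k K] (σ : K ≃ₐ[k] K) : Type :=
  Quot (Rel σ)

/-- The image in `S` of the point `(P, Q)` of `C × C`. -/
def quo {k : Type} [Field k] {K : Type} [Field K] [Algebra k K] (σ : K ≃ₐ[k] K)
    (x : Place k K × Place k K) : Kum σ := Quot.mk (Rel σ) x

/-- The zero-cycles on `S` (with rational coefficients) rationally equivalent to zero: the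
push-forwards of the zero-cycles on `C × C` rationally equivalent to zero. -/
noncomputable def ratTrivKum {k : Type} [Field k] [CharZero k] {K : Type} [Field K] [Algebra k K]
    (σ : K ≃ₐ[k] K) : Submodule ℚ (Kum σ →₀ ℚ) :=
  (rat2 k K).map (Finsupp.lmapDomain ℚ ℚ (quo σ))

/-- `CH_0(S) ⊗ ℚ`. -/
def CH0 {k : Type} [Field k] [CharZero k] {K : Type} [Field K] [Algebra k K]
    (σ : K ≃ₐ[k] K) : Type := (Kum σ →₀ ℚ) ⧸ ratTrivKum σ

noncomputable instance {k : Type} [Field k] [CharZero k] {K : Type} [Field K] [Algebra k K]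
    (σ : K ≃ₐ[k] K) : AddCommGroup (CH0 σ) :=
  Submodule.Quotient.addCommGroup (ratTrivKum σ)

noncomputable instance {k : Type} [Field k] [CharZero k] {K : Type} [Field K] [Algebra k K]
    (σ : K ≃ₐ[k] K) : Module ℚ (CH0 σ) :=
  Submodule.Quotient.module (ratTrivKum σ)

variable {k : Type} [Field k] [CharZero k] {K : Type} [Field K] [Algebra k K]

/-- The class of a divisor in `Pic(C) ⊗ ℚ`. -/
noncomputable def mkP : (Place k K →₀ ℚ) →ₗ[ℚ] PicQ k K := (rat1 k K).mkQ

/-- The class of a zero-cycle in `CH_0(S) ⊗ ℚ`. -/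
noncomputable def mkS (σ : K ≃ₐ[k] K) : (Kum σ →₀ ℚ) →ₗ[ℚ] CH0 σ := (ratTrivKum σ).mkQ

/-- The class of the point `P` in `Pic(C) ⊗ ℚ`. -/
noncomputable def pt (P : Place k K) : PicQ k K := mkP (Finsupp.single P 1)

/-- The class in `CH_0(S) ⊗ ℚ` of the image of the point `(P, Q)` of `C × C`. -/
noncomputable def point (σ : K ≃ₐ[k] K) (P Q : Place k K) : CH0 σ :=
  mkS σ (Finsupp.single (quo σ (P, Q)) 1)

/-- The class `P - W`. -/
noncomputable def dif (W P : Place k K) : PicQ k K := pt P - pt W

/-- The zero-cycle `(P, Q) - (W, W)` on `S`. -/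
noncomputable def pointDif (σ : K ≃ₐ[k] K) (W P Q : Place k K) : CH0 σ :=
  point σ P Q - point σ W W

variable {V : Type} [AddCommGroup V] [Module ℚ V]

/-- The point `(P, Q)` lies over the subspace `V` (the image of `ι`) of `Pic(C) ⊗ ℚ`: the class
`P + Q - 2 W` is in `V`. -/
def LiesOver (W : Place k K) (ι : V →ₗ[ℚ] PicQ k K) (P Q : Place k K) : Prop :=
  ∃ v : V, ι v = dif W P + dif W Q

/-- The space of the classes of the zero-cycles of degree zero on `S` which are supported on the
points that are the images of the `(P, Q)` with `P + Q - 2 W` in the subspace `V` of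
`Pic(C) ⊗ ℚ`. -/
noncomputable def pointSpace (σ : K ≃ₐ[k] K) (W : Place k K) (ι : V →ₗ[ℚ] PicQ k K) :
    Submodule ℚ (CH0 σ) :=
  Submodule.span ℚ {z | ∃ P Q : Place k K, LiesOver W ι P Q ∧ z = pointDif σ W P Q}

/-- The bilinear form `b` on `V` is symmetric, and the quadratic form `b(v, v)` vanishes at all the
elements of `V` of the form `P - W`, `P` a point of `C`. -/
structure IsForm (W : Place k K) (ι : V →ₗ[ℚ] PicQ k K) (b : V →ₗ[ℚ] V →ₗ[ℚ] ℚ) : Prop where
  symm : ∀ x y : V, b x y = b y x
  vanish : ∀ (v : V) (P : Place k K), ι v = dif W P → b v v = 0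

/-- The space of the quadratic forms on `V` (symmetric bilinear forms `b`) which vanish at all the
elements of `V` of the form `P - W`, `P` a point of `C`. -/
def Forms (W : Place k K) (ι : V →ₗ[ℚ] PicQ k K) : Submodule ℚ (V →ₗ[ℚ] V →ₗ[ℚ] ℚ) :=
  Submodule.span ℚ {b | IsForm W ι b}

end Pool.Agent.Q70.KM
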