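import Pool.Agent.Q70.KM.CDefs

/-!
# The surfaces `(C × D) / G` with `C / G` and `D / G` projective lines: definitions
-/

set_option autoImplicit false

namespace Pool.Agent.Q70.KM

open FF Pool.Agent.Q70.CH

section

variable {k : Type} [Field k] [CharZero k] {K : Type} [Field K] [Algebra k K]
  {G : Type} [Group G] [Fintype G]

/-- The class in `Pic(C) ⊗ ℚ` of the sum of the points `g(P)`, `g` in the finite group `G`, which
operates on the curve `C` by the homomorphism `σ`. -/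
noncomputable def groupSum (σ : G →* (K ≃ₐ[k] K)) (P : Place k K) : PicQ k K :=
  ∑ g : G, pt (P.comp (σ g))

/-- The quotient `C / G` is a projective line: the class in `Pic(C) ⊗ ℚ` of the sum of the points
`g(P)`, `g` in `G`, is the same for all points `P`. -/
def LineQuotient (σ : G →* (K ≃ₐ[k] K)) : Prop :=
  ∀ P P' : Place k K, groupSum σ P = groupSum σ P'

/-- The class `P - (1 / |G|) ∑ g(P)` of degree zero in `Pic(C) ⊗ ℚ`. -/
noncomputable def red (σ : G →* (K ≃ₐ[k] K)) (P : Place k K) : PicQ k K :=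
  pt P - ((Fintype.card G : ℚ)⁻¹) • groupSum σ P

end

section

variable {k : Type} [Field k] {K : Type} [Field K] [Algebra k K] {L : Type} [Field L] [Algebra k L]
  {G : Type} [Group G]

/-- The identifications `(P, Q) ∼ (g(P), g(Q))` of points of `C × D`. -/
inductive RelG (σ : G →* (K ≃ₐ[k] K)) (τ : G →* (L ≃ₐ[k] L)) :
    Place k K × Place k L → Place k K × Place k L → Prop
  | act (g : G) (P : Place k K) (Q : Place k L) : RelG σ τ (P, Q) (P.comp (σ g), Q.comp (τ g))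

/-- The points of the quotient surface `X = (C × D) / G`. -/
def SurfG (σ : G →* (K ≃ₐ[k] K)) (τ : G →* (L ≃ₐ[k] L)) : Type := Quot (RelG σ τ)

/-- The image in `X` of the point `x` of `C × D`. -/
def quoG (σ : G →* (K ≃ₐ[k] K)) (τ : G →* (L ≃ₐ[k] L)) (x : Place k K × Place k L) : SurfG σ τ :=
  Quot.mk (RelG σ τ) x

end

variable {k : Type} [Field k] [CharZero k] {K : Type} [Field K] [Algebra k K]
  {L : Type} [Field L] [Algebra k L] {G : Type} [Group G]

/-- The zero-cycles on `X` rationally equivalent to zero: the push-forwards of the zero-cycles on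
`C × D` rationally equivalent to zero. -/
noncomputable def ratG (σ : G →* (K ≃ₐ[k] K)) (τ : G →* (L ≃ₐ[k] L)) :
    Submodule ℚ (SurfG σ τ →₀ ℚ) :=
  (rat3 k K L).map (Finsupp.lmapDomain ℚ ℚ (quoG σ τ))

/-- `CH_0(X) ⊗ ℚ`. -/
def CHG (σ : G →* (K ≃ₐ[k] K)) (τ : G →* (L ≃ₐ[k] L)) : Type := (SurfG σ τ →₀ ℚ) ⧸ ratG σ τ

noncomputable instance (σ : G →* (K ≃ₐ[k] K)) (τ : G →* (L ≃ₐ[k] L)) : AddCommGroup (CHG σ τ) :=
  Submodule.Quotient.addCommGroup (ratG σ τ)

noncomputable instance (σ : G →* (K ≃ₐ[k] K)) (τ : G →* (L ≃ₐ[k] L)) : Module ℚ (CHG σ τ) :=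
  Submodule.Quotient.module (ratG σ τ)

/-- The class of a zero-cycle in `CH_0(X) ⊗ ℚ`. -/
noncomputable def clG (σ : G →* (K ≃ₐ[k] K)) (τ : G →* (L ≃ₐ[k] L)) :
    (SurfG σ τ →₀ ℚ) →ₗ[ℚ] CHG σ τ := (ratG σ τ).mkQ

/-- The class in `CH_0(X) ⊗ ℚ` of the image of the point `x` of `C × D`. -/
noncomputable def pointG (σ : G →* (K ≃ₐ[k] K)) (τ : G →* (L ≃ₐ[k] L))
    (x : Place k K × Place k L) : CHG σ τ := clG σ τ (Finsupp.single (quoG σ τ x) 1)

/-- The class `c` of degree one in `CH_0(X) ⊗ ℚ` is the class of Beauville and Voisin of `X`: for all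
points `P` of `C` and `Q` of `D` it is the mean `(1 / |G|) ∑ (P, g(Q))`. (The mean does not
depend on `P` and `Q` if `C / G` and `D / G` are projective lines: up to a factor, it is the
intersection of the pull-backs of a point of `C / G` and a point of `D / G`.) -/
def IsCentral [Fintype G] (σ : G →* (K ≃ₐ[k] K)) (τ : G →* (L ≃ₐ[k] L)) (c : CHG σ τ) : Prop :=
  ∀ (P : Place k K) (Q : Place k L),
    ∑ g : G, pointG σ τ (P, Q.comp (τ g)) = (Fintype.card G : ℚ) • c

/-- The image in `X` of the zero-cycle `a × b` on `C × D`, as a bilinear map of the zero-cycles `a`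
on `C` and `b` on `D`: for points `P` and `Q` it is the image of the point `(P, Q)`. -/
noncomputable def crossG (σ : G →* (K ≃ₐ[k] K)) (τ : G →* (L ≃ₐ[k] L)) :
    (Place k K →₀ ℚ) →ₗ[ℚ] (Place k L →₀ ℚ) →ₗ[ℚ] (SurfG σ τ →₀ ℚ) :=
  Finsupp.linearCombination ℚ (fun P => Finsupp.linearCombination ℚ
    (fun Q => Finsupp.single (quoG σ τ (P, Q)) 1))

variable {V : Type} [AddCommGroup V] [Module ℚ V] {V' : Type} [AddCommGroup V'] [Module ℚ V']

/-- The space of the classes in `CH_0(X) ⊗ ℚ` of the images of the zero-cycles `a × b`, where `a` is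
a zero-cycle of degree zero on `C` with class in the subspace `V` of `Pic(C) ⊗ ℚ` (the image of
`ι`), and `b` a zero-cycle of degree zero on `D` with class in the subspace `V'` of
`Pic(D) ⊗ ℚ`. -/
noncomputable def spaceG (σ : G →* (K ≃ₐ[k] K)) (τ : G →* (L ≃ₐ[k] L))
    (ι : V →ₗ[ℚ] PicQ k K) (ι' : V' →ₗ[ℚ] PicQ k L) : Submodule ℚ (CHG σ τ) :=
  Submodule.span ℚ {z | ∃ (a : Place k K →₀ ℚ) (b : Place k L →₀ ℚ),
    (a.sum fun _ c => c) = 0 ∧ (b.sum fun _ c => c) = 0 ∧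
    (∃ v, ι v = mkP a) ∧ (∃ w, ι' w = mkP b) ∧ z = clG σ τ (crossG σ τ a b)}

/-- The bilinear form `b` on `V × V'` is invariant under `G`, and it vanishes at
`(red P, red Q)` for all points `(P, Q)` over `V × V'` whose image in `X` has the class `c`. -/
structure IsFormG [Fintype G] (σ : G →* (K ≃ₐ[k] K)) (τ : G →* (L ≃ₐ[k] L)) (c : CHG σ τ)
    (ι : V →ₗ[ℚ] PicQ k K) (ι' : V' →ₗ[ℚ] PicQ k L) (b : V →ₗ[ℚ] V' →ₗ[ℚ] ℚ) : Prop where
  inv : ∀ (g : G) (x x' : V) (y y' : V'), ι x' = act (σ g) (ι x) → ι' y' = act (τ g) (ι' y) →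
    b x' y' = b x y
  vanish : ∀ (x : V) (y : V') (P : Place k K) (Q : Place k L), ι x = red σ P →
    ι' y = red τ Q → pointG σ τ (P, Q) = c → b x y = 0

/-- The space of these bilinear forms. -/
def FormsG [Fintype G] (σ : G →* (K ≃ₐ[k] K)) (τ : G →* (L ≃ₐ[k] L)) (c : CHG σ τ)
    (ι : V →ₗ[ℚ] PicQ k K) (ι' : V' →ₗ[ℚ] PicQ k L) : Submodule ℚ (V →ₗ[ℚ] V' →ₗ[ℚ] ℚ) :=
  Submodule.span ℚ {b | IsFormG σ τ c ι ι' b}

end Pool.Agent.Q70.KM
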