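import Pool.Agent.Q70.KM.GDefs
import Pool.Agent.Q70.KM.Main

/-!
# Zero-cycles on the surfaces `(C × D) / G` with `C / G` and `D / G` projective lines
-/

set_option autoImplicit false

namespace Pool.Agent.Q70.KM

open FF Pool.Agent.Q70.CH Module

section

variable {k : Type} [Field k] [CharZero k] {K : Type} [Field K] [Algebra k K]
  {L : Type} [Field L] [Algebra k L] {G : Type} [Group G]

lemma actG_mk (σ : K ≃ₐ[k] K) (x : Place k K →₀ ℚ) :
    act σ (mkP x) = mkP (x.mapDomain (fun P => P.comp σ)) := rfl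

lemma pointG_act (σ : G →* (K ≃ₐ[k] K)) (τ : G →* (L ≃ₐ[k] L)) (g : G) (P : Place k K)
    (Q : Place k L) :
    pointG σ τ (P.comp (σ g), Q.comp (τ g)) = pointG σ τ (P, Q) := by
  unfold pointG quoG
  rw [Quot.sound (RelG.act g P Q)]

omit [CharZero k] in
lemma comp_inv (σ : G →* (K ≃ₐ[k] K)) (g : G) (P : Place k K) :
    (P.comp (σ g)).comp (σ g⁻¹) = P := by
  have h : ∀ f : K, σ g (σ g⁻¹ f) = f := by
    intro f
    have h1 : (σ g * σ g⁻¹) f = f := by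
      rw [← map_mul, mul_inv_cancel, map_one]
      rfl
    exact h1
  apply Place.ext
  funext f
  change P.ord (σ g (σ g⁻¹ f)) = P.ord f
  rw [h]

lemma pointG_inv (σ : G →* (K ≃ₐ[k] K)) (τ : G →* (L ≃ₐ[k] L)) (g : G) (P : Place k K)
    (Q : Place k L) :
    pointG σ τ (P.comp (σ g), Q) = pointG σ τ (P, Q.comp (τ g⁻¹)) := by
  have h := pointG_act σ τ g⁻¹ (P.comp (σ g)) Q
  rw [comp_inv] at h
  exact h.symm

lemma clG_eq_zero {σ : G →* (K ≃ₐ[k] K)} {τ : G →* (L ≃ₐ[k] L)}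
    {z : Place k K × Place k L →₀ ℚ}
    (hz : z ∈ rat3 k K L) : clG σ τ (z.mapDomain (quoG σ τ)) = 0 :=
  (Submodule.Quotient.mk_eq_zero (ratG σ τ)).2 ⟨z, hz, rfl⟩

/-- the push-forward from the curve `E` to `X` -/
noncomputable def pushG (σ : G →* (K ≃ₐ[k] K)) (τ : G →* (L ≃ₐ[k] L)) {E : Type} [Field E]
    [Algebra k E] (s : Place k E → Place k K × Place k L) : (Place k E →₀ ℚ) →ₗ[ℚ] CHG σ τ :=
  (clG σ τ).comp (Finsupp.lmapDomain ℚ ℚ (fun R => quoG σ τ (s R)))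

lemma pushG_single (σ : G →* (K ≃ₐ[k] K)) (τ : G →* (L ≃ₐ[k] L)) {E : Type} [Field E]
    [Algebra k E] (s : Place k E → Place k K × Place k L) (R : Place k E) :
    pushG σ τ s (Finsupp.single R 1) = pointG σ τ (s R) := by
  unfold pushG pointG
  rw [LinearMap.comp_apply, Finsupp.lmapDomain_apply, Finsupp.mapDomain_single]

lemma pushG_triv (σ : G →* (K ≃ₐ[k] K)) (τ : G →* (L ≃ₐ[k] L)) {E : Type} [Field E]
    [Algebra k E] {s : Place k E → Place k K × Place k L}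
    (hs : IsMap (curve (k := k) E) ((curve K).prod (curve L)) s) {x : Place k E →₀ ℚ}
    (hx : x ∈ rat1 k E) : pushG σ τ s x = 0 := by
  have h0 : x.mapDomain s ∈ rat3 k K L :=
    mapDomain_mem (X := curve (k := k) E) (Y := (curve (k := k) K).prod (curve L)) hs hx
  have h := clG_eq_zero (σ := σ) (τ := τ) h0
  have h1 : (x.mapDomain s).mapDomain (quoG σ τ) =
      x.mapDomain (fun R => quoG σ τ (s R)) := by
    rw [← Finsupp.mapDomain_comp]
    rfl
  have h2 : clG σ τ (x.mapDomain (fun R => quoG σ τ (s R))) = 0 := by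
    rw [← h1]
    exact h
  exact h2

omit [CharZero k] in
lemma isMap_prG (Q : Place k L) : IsMap (curve (k := k) K) ((curve K).prod (curve L))
    (fun P : Place k K => (P, Q)) := by
  intro B _ _ _ s hs
  exact ⟨hs, Or.inl ⟨Q, fun _ => rfl⟩⟩

omit [CharZero k] in
lemma isMap_plG (P : Place k K) : IsMap (curve (k := k) L) ((curve K).prod (curve L))
    (fun Q : Place k L => (P, Q)) := by
  intro B _ _ _ s hs
  exact ⟨Or.inl ⟨P, fun _ => rfl⟩, hs⟩

lemma pushG_pr (σ : G →* (K ≃ₐ[k] K)) (τ : G →* (L ≃ₐ[k] L)) (Q : Place k L)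
    {x : Place k K →₀ ℚ} (hx : x ∈ rat1 k K) :
    pushG σ τ (fun P : Place k K => (P, Q)) x = 0 :=
  pushG_triv σ τ (isMap_prG Q) hx

lemma pushG_pl (σ : G →* (K ≃ₐ[k] K)) (τ : G →* (L ≃ₐ[k] L)) (P : Place k K)
    {x : Place k L →₀ ℚ} (hx : x ∈ rat1 k L) :
    pushG σ τ (fun Q : Place k L => (P, Q)) x = 0 :=
  pushG_triv σ τ (isMap_plG P) hx

end

section

variable {k : Type} [Field k] [CharZero k] {K : Type} [Field K] [Algebra k K]
  {L : Type} [Field L] [Algebra k L] {G : Type} [Group G] [Fintype G]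

/-- `Q ↦ ∑ (P, g(Q))` is constant -/
lemma sum_right {σ : G →* (K ≃ₐ[k] K)} {τ : G →* (L ≃ₐ[k] L)} (hτ : LineQuotient τ)
    (P : Place k K) (Q Q' : Place k L) :
    ∑ g : G, pointG σ τ (P, Q.comp (τ g)) = ∑ g : G, pointG σ τ (P, Q'.comp (τ g)) := by
  have h : ∀ Q : Place k L, liftP (pushG σ τ (fun Q : Place k L => (P, Q)))
      (fun x hx => pushG_pl σ τ P hx) (groupSum τ Q) =
      ∑ g : G, pointG σ τ (P, Q.comp (τ g)) := by
    intro Q
    unfold groupSum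
    rw [map_sum]
    refine Finset.sum_congr rfl fun g _ => ?_
    unfold pt
    rw [liftP_mk, pushG_single]
  rw [← h Q, ← h Q', hτ Q Q']

lemma sum_left {σ : G →* (K ≃ₐ[k] K)} {τ : G →* (L ≃ₐ[k] L)} (hσ : LineQuotient σ)
    (Q : Place k L) (P P' : Place k K) :
    ∑ g : G, pointG σ τ (P.comp (σ g), Q) = ∑ g : G, pointG σ τ (P'.comp (σ g), Q) := by
  have h : ∀ P : Place k K, liftP (pushG σ τ (fun P : Place k K => (P, Q)))
      (fun x hx => pushG_pr σ τ Q hx) (groupSum σ P) =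
      ∑ g : G, pointG σ τ (P.comp (σ g), Q) := by
    intro P
    unfold groupSum
    rw [map_sum]
    refine Finset.sum_congr rfl fun g _ => ?_
    unfold pt
    rw [liftP_mk, pushG_single]
  rw [← h P, ← h P', hσ P P']

lemma sum_swap (σ : G →* (K ≃ₐ[k] K)) (τ : G →* (L ≃ₐ[k] L)) (P : Place k K) (Q : Place k L) :
    ∑ g : G, pointG σ τ (P.comp (σ g), Q) = ∑ g : G, pointG σ τ (P, Q.comp (τ g)) := by
  rw [← Equiv.sum_comp (Equiv.inv G) (fun g => pointG σ τ (P, Q.comp (τ g)))]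
  refine Finset.sum_congr rfl fun g _ => ?_
  exact pointG_inv σ τ g P Q

lemma exists_central {σ : G →* (K ≃ₐ[k] K)} {τ : G →* (L ≃ₐ[k] L)} (hσ : LineQuotient σ)
    (hτ : LineQuotient τ) : ∃ c : CHG σ τ, IsCentral σ τ c := by
  by_cases hne : Nonempty (Place k K × Place k L)
  · obtain ⟨P₀, Q₀⟩ := hne
    refine ⟨(Fintype.card G : ℚ)⁻¹ • ∑ g : G, pointG σ τ (P₀, Q₀.comp (τ g)), fun P Q => ?_⟩
    rw [smul_inv_smul₀ (Nat.cast_ne_zero.2 Fintype.card_ne_zero), sum_right hτ P Q Q₀,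
      ← sum_swap, sum_left hσ Q₀ P P₀, sum_swap]
  · exact ⟨0, fun P Q => absurd ⟨(P, Q)⟩ hne⟩

end

section

variable {k : Type} [Field k] [CharZero k] [IsAlgClosed k] {K : Type} [Field K] [Algebra k K]
  {L : Type} [Field L] [Algebra k L] {G : Type} [Group G]

/-- the bilinear map on zero-cycles -/
noncomputable def F0 (σ : G →* (K ≃ₐ[k] K)) (τ : G →* (L ≃ₐ[k] L)) (c : CHG σ τ) :
    (Place k K →₀ ℚ) →ₗ[ℚ] (Place k L →₀ ℚ) →ₗ[ℚ] CHG σ τ :=
  Finsupp.linearCombination ℚ (fun P => Finsupp.linearCombination ℚ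
    (fun Q => pointG σ τ (P, Q) - c))

omit [IsAlgClosed k] in
lemma F0_single (σ : G →* (K ≃ₐ[k] K)) (τ : G →* (L ≃ₐ[k] L)) (c : CHG σ τ)
    (P : Place k K) (Q : Place k L) :
    F0 σ τ c (Finsupp.single P 1) (Finsupp.single Q 1) = pointG σ τ (P, Q) - c := by
  simp [F0]

/-- the constant functional -/
noncomputable def cstG {A : Type} {σ : G →* (K ≃ₐ[k] K)} {τ : G →* (L ≃ₐ[k] L)} (c : CHG σ τ) :
    (A →₀ ℚ) →ₗ[ℚ] CHG σ τ := dg.smulRight c

omit [IsAlgClosed k] in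
lemma cstG_single {A : Type} {σ : G →* (K ≃ₐ[k] K)} {τ : G →* (L ≃ₐ[k] L)} (c : CHG σ τ)
    (a : A) : cstG c (Finsupp.single a 1) = c := by
  unfold cstG
  rw [LinearMap.smulRight_apply, dg_single, one_smul]

lemma cstG_triv {σ : G →* (K ≃ₐ[k] K)} {τ : G →* (L ≃ₐ[k] L)} (c : CHG σ τ) {M : Type}
    [Field M] [Algebra k M] {x : Place k M →₀ ℚ} (hx : x ∈ rat1 k M) : cstG c x = 0 := by
  unfold cstG
  rw [LinearMap.smulRight_apply, dg_rat1 hx, zero_smul]

lemma F0_triv_left (σ : G →* (K ≃ₐ[k] K)) (τ : G →* (L ≃ₐ[k] L)) (c : CHG σ τ)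
    {x : Place k K →₀ ℚ} (hx : x ∈ rat1 k K) : F0 σ τ c x = 0 := by
  apply Finsupp.lhom_ext'
  intro Q
  apply LinearMap.ext_ring
  change F0 σ τ c x (Finsupp.single Q 1) = 0
  have h : (F0 σ τ c).flip (Finsupp.single Q 1) =
      pushG σ τ (fun P => (P, Q)) - cstG c := by
    apply Finsupp.lhom_ext'
    intro P
    apply LinearMap.ext_ring
    change F0 σ τ c (Finsupp.single P 1) (Finsupp.single Q 1) =
      pushG σ τ (fun P => (P, Q)) (Finsupp.single P 1) - cstG c (Finsupp.single P 1)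
    rw [F0_single, pushG_single, cstG_single]
  have h1 : F0 σ τ c x (Finsupp.single Q 1) = pushG σ τ (fun P => (P, Q)) x - cstG c x :=
    congrArg (fun f => f x) h
  rw [h1, pushG_pr σ τ Q hx, cstG_triv _ hx, sub_zero]

lemma F0_triv_right (σ : G →* (K ≃ₐ[k] K)) (τ : G →* (L ≃ₐ[k] L)) (c : CHG σ τ)
    {y : Place k L →₀ ℚ} (hy : y ∈ rat1 k L) (x : Place k K →₀ ℚ) : F0 σ τ c x y = 0 := by
  have h0 : (F0 σ τ c).flip y = 0 := by
    apply Finsupp.lhom_ext'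
    intro P
    apply LinearMap.ext_ring
    change F0 σ τ c (Finsupp.single P 1) y = 0
    have h : F0 σ τ c (Finsupp.single P 1) = pushG σ τ (fun Q => (P, Q)) - cstG c := by
      apply Finsupp.lhom_ext'
      intro Q
      apply LinearMap.ext_ring
      change F0 σ τ c (Finsupp.single P 1) (Finsupp.single Q 1) =
        pushG σ τ (fun Q => (P, Q)) (Finsupp.single Q 1) - cstG c (Finsupp.single Q 1)
      rw [F0_single, pushG_single, cstG_single]
    have h1 : F0 σ τ c (Finsupp.single P 1) y = pushG σ τ (fun Q => (P, Q)) y - cstG c y :=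
      congrArg (fun f => f y) h
    rw [h1, pushG_pl σ τ P hy, cstG_triv _ hy, sub_zero]
  exact congrArg (fun f => f x) h0

/-- the bilinear map on `Pic(C) ⊗ ℚ` and `Pic(D) ⊗ ℚ` -/
noncomputable def FG (σ : G →* (K ≃ₐ[k] K)) (τ : G →* (L ≃ₐ[k] L)) (c : CHG σ τ) :
    PicQ k K →ₗ[ℚ] PicQ k L →ₗ[ℚ] CHG σ τ :=
  (liftP ((liftP (F0 σ τ c) (fun _ hx => F0_triv_left σ τ c hx)).flip) (by
      intro y hy
      apply LinearMap.ext
      intro x
      obtain ⟨x, rfl⟩ := mkP_surjective x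
      rw [LinearMap.flip_apply, liftP_mk, F0_triv_right σ τ c hy, LinearMap.zero_apply])).flip

lemma FG_mk (σ : G →* (K ≃ₐ[k] K)) (τ : G →* (L ≃ₐ[k] L)) (c : CHG σ τ)
    (x : Place k K →₀ ℚ) (y : Place k L →₀ ℚ) :
    FG σ τ c (mkP x) (mkP y) = F0 σ τ c x y := rfl

lemma FG_pt (σ : G →* (K ≃ₐ[k] K)) (τ : G →* (L ≃ₐ[k] L)) (c : CHG σ τ)
    (P : Place k K) (Q : Place k L) :
    FG σ τ c (pt P) (pt Q) = pointG σ τ (P, Q) - c := by
  unfold pt
  rw [FG_mk, F0_single]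

omit [IsAlgClosed k] in
lemma F0_act (σ : G →* (K ≃ₐ[k] K)) (τ : G →* (L ≃ₐ[k] L)) (c : CHG σ τ) (g : G)
    (x : Place k K →₀ ℚ) (y : Place k L →₀ ℚ) :
    F0 σ τ c (x.mapDomain (fun P => P.comp (σ g))) (y.mapDomain (fun Q => Q.comp (τ g))) =
      F0 σ τ c x y := by
  have h : (F0 σ τ c).compl₁₂ (Finsupp.lmapDomain ℚ ℚ (fun P : Place k K => P.comp (σ g)))
      (Finsupp.lmapDomain ℚ ℚ (fun Q : Place k L => Q.comp (τ g))) = F0 σ τ c := by
    apply Finsupp.lhom_ext'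
    intro P
    apply LinearMap.ext_ring
    apply Finsupp.lhom_ext'
    intro Q
    apply LinearMap.ext_ring
    change F0 σ τ c ((Finsupp.single P (1 : ℚ)).mapDomain (fun P => P.comp (σ g)))
      ((Finsupp.single Q (1 : ℚ)).mapDomain (fun Q => Q.comp (τ g))) =
      F0 σ τ c (Finsupp.single P 1) (Finsupp.single Q 1)
    rw [Finsupp.mapDomain_single, Finsupp.mapDomain_single, F0_single, F0_single, pointG_act]
  exact congrArg (fun f => f x y) h

lemma FG_act (σ : G →* (K ≃ₐ[k] K)) (τ : G →* (L ≃ₐ[k] L)) (c : CHG σ τ) (g : G)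
    (x : PicQ k K) (y : PicQ k L) :
    FG σ τ c (act (σ g) x) (act (τ g) y) = FG σ τ c x y := by
  obtain ⟨x, rfl⟩ := mkP_surjective x
  obtain ⟨y, rfl⟩ := mkP_surjective y
  rw [actG_mk, actG_mk, FG_mk, FG_mk, F0_act]

omit [IsAlgClosed k] in
lemma clG_cross {σ : G →* (K ≃ₐ[k] K)} {τ : G →* (L ≃ₐ[k] L)} (c : CHG σ τ)
    (a : Place k K →₀ ℚ) (b : Place k L →₀ ℚ) :
    clG σ τ (crossG σ τ a b) = F0 σ τ c a b + (dg a * dg b) • c := by
  have h : (crossG σ τ).compr₂ (clG σ τ) = F0 σ τ c +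
      LinearMap.mk₂ ℚ (fun (a : Place k K →₀ ℚ) (b : Place k L →₀ ℚ) => (dg a * dg b) • c)
        (fun a a' b => by rw [map_add, add_mul, add_smul])
        (fun r a b => by rw [map_smul, smul_eq_mul, mul_assoc, mul_smul])
        (fun a b b' => by rw [map_add, mul_add, add_smul])
        (fun r a b => by rw [map_smul, smul_eq_mul, mul_left_comm, mul_smul]) := by
    apply Finsupp.lhom_ext'
    intro P
    apply LinearMap.ext_ring
    apply Finsupp.lhom_ext'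
    intro Q
    apply LinearMap.ext_ring
    change clG σ τ (crossG σ τ (Finsupp.single P 1) (Finsupp.single Q 1)) =
      F0 σ τ c (Finsupp.single P 1) (Finsupp.single Q 1) +
        (dg (Finsupp.single P (1 : ℚ)) * dg (Finsupp.single Q (1 : ℚ))) • c
    rw [F0_single, dg_single, dg_single, mul_one, one_smul, sub_add_cancel]
    unfold crossG pointG
    simp
  exact congrArg (fun f => f a b) h

variable {σ : G →* (K ≃ₐ[k] K)} {τ : G →* (L ≃ₐ[k] L)} {c : CHG σ τ}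

section fin

variable [Fintype G]

lemma FG_sum_left (h : IsCentral σ τ c) (P : Place k K) (Q : Place k L) :
    FG σ τ c (groupSum σ P) (pt Q) = 0 := by
  unfold groupSum
  rw [map_sum, LinearMap.sum_apply]
  have h1 : ∀ g ∈ (Finset.univ : Finset G), FG σ τ c (pt (P.comp (σ g))) (pt Q) =
      pointG σ τ (P.comp (σ g), Q) - c := fun g _ => FG_pt σ τ c _ _
  rw [Finset.sum_congr rfl h1, Finset.sum_sub_distrib, sum_swap, h P Q, Finset.sum_const,
    Finset.card_univ, ← Nat.cast_smul_eq_nsmul ℚ, sub_self]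

lemma FG_sum_right (h : IsCentral σ τ c) (P : Place k K) (Q : Place k L) :
    FG σ τ c (pt P) (groupSum τ Q) = 0 := by
  unfold groupSum
  rw [map_sum]
  have h1 : ∀ g ∈ (Finset.univ : Finset G), FG σ τ c (pt P) (pt (Q.comp (τ g))) =
      pointG σ τ (P, Q.comp (τ g)) - c := fun g _ => FG_pt σ τ c _ _
  rw [Finset.sum_congr rfl h1, Finset.sum_sub_distrib, h P Q, Finset.sum_const,
    Finset.card_univ, ← Nat.cast_smul_eq_nsmul ℚ, sub_self]

lemma FG_sum_sum (h : IsCentral σ τ c) (P : Place k K) (Q : Place k L) :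
    FG σ τ c (groupSum σ P) (groupSum τ Q) = 0 := by
  rw [show groupSum τ Q = ∑ g : G, pt (Q.comp (τ g)) from rfl, map_sum]
  exact Finset.sum_eq_zero fun g _ => FG_sum_left h P _

lemma FG_red (h : IsCentral σ τ c) (P : Place k K) (Q : Place k L) :
    FG σ τ c (red σ P) (red τ Q) = pointG σ τ (P, Q) - c := by
  unfold red
  simp only [map_sub, map_smul, LinearMap.sub_apply, LinearMap.smul_apply, FG_sum_left h,
    FG_sum_right h, FG_sum_sum h, smul_zero, sub_zero, FG_pt]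

end fin

variable {V : Type} [AddCommGroup V] [Module ℚ V] {V' : Type} [AddCommGroup V'] [Module ℚ V']

/-- the bilinear map on `V × V'` -/
noncomputable def gV (σ : G →* (K ≃ₐ[k] K)) (τ : G →* (L ≃ₐ[k] L)) (c : CHG σ τ)
    (ι : V →ₗ[ℚ] PicQ k K) (ι' : V' →ₗ[ℚ] PicQ k L) :
    V →ₗ[ℚ] V' →ₗ[ℚ] CHG σ τ := (FG σ τ c).compl₁₂ ι ι'

/-- the space spanned by its values -/
noncomputable def MG (σ : G →* (K ≃ₐ[k] K)) (τ : G →* (L ≃ₐ[k] L)) (c : CHG σ τ)
    (ι : V →ₗ[ℚ] PicQ k K) (ι' : V' →ₗ[ℚ] PicQ k L) : Submodule ℚ (CHG σ τ) :=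
  Submodule.map₂ (gV σ τ c ι ι') ⊤ ⊤

lemma gV_mem (ι : V →ₗ[ℚ] PicQ k K) (ι' : V' →ₗ[ℚ] PicQ k L) (x : V) (y : V') :
    gV σ τ c ι ι' x y ∈ MG σ τ c ι ι' :=
  Submodule.apply_mem_map₂ _ Submodule.mem_top Submodule.mem_top

lemma spaceG_le (ι : V →ₗ[ℚ] PicQ k K) (ι' : V' →ₗ[ℚ] PicQ k L) :
    spaceG σ τ ι ι' ≤ MG σ τ c ι ι' := by
  unfold spaceG
  rw [Submodule.span_le]
  rintro _ ⟨a, b, ha, hb, ⟨v, hv⟩, ⟨w, hw⟩, rfl⟩
  have h1 := gV_mem (σ := σ) (τ := τ) (c := c) ι ι' v w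
  change FG σ τ c (ι v) (ι' w) ∈ _ at h1
  rw [hv, hw, FG_mk] at h1
  rw [← dg_eq] at ha
  rw [SetLike.mem_coe, clG_cross c, ha, zero_mul, zero_smul, add_zero]
  exact h1

/-- the bilinear map with values in the span -/
noncomputable def gM (σ : G →* (K ≃ₐ[k] K)) (τ : G →* (L ≃ₐ[k] L)) (c : CHG σ τ)
    (ι : V →ₗ[ℚ] PicQ k K) (ι' : V' →ₗ[ℚ] PicQ k L) :
    V →ₗ[ℚ] V' →ₗ[ℚ] MG σ τ c ι ι' :=
  LinearMap.mk₂ ℚ (fun x y => ⟨gV σ τ c ι ι' x y, gV_mem ι ι' x y⟩)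
    (fun x x' y => Subtype.ext (by simp)) (fun c x y => Subtype.ext (by simp))
    (fun x y y' => Subtype.ext (by simp)) (fun c x y => Subtype.ext (by simp))

variable [Fintype G]

/-- the zero-cycle with the class `red P` -/
noncomputable def redCycle (σ : G →* (K ≃ₐ[k] K)) (P : Place k K) : Place k K →₀ ℚ :=
  Finsupp.single P 1 - ((Fintype.card G : ℚ)⁻¹) • ∑ g : G, Finsupp.single (P.comp (σ g)) 1

lemma mk_redCycle (σ : G →* (K ≃ₐ[k] K)) (P : Place k K) : mkP (redCycle σ P) = red σ P := by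
  unfold redCycle red groupSum pt
  rw [map_sub, map_smul, map_sum]

lemma dg_redCycle (σ : G →* (K ≃ₐ[k] K)) (P : Place k K) : dg (redCycle σ P) = 0 := by
  unfold redCycle
  rw [map_sub, map_smul, map_sum, dg_single, Finset.sum_congr rfl fun g _ => dg_single _ _,
    Finset.sum_const, Finset.card_univ, nsmul_eq_mul, mul_one, smul_eq_mul,
    inv_mul_cancel₀ (Nat.cast_ne_zero.2 Fintype.card_ne_zero), sub_self]

lemma pointG_mem (h : IsCentral σ τ c) (ι : V →ₗ[ℚ] PicQ k K) (ι' : V' →ₗ[ℚ] PicQ k L)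
    {P : Place k K} {Q : Place k L} (hP : ∃ v, ι v = red σ P) (hQ : ∃ w, ι' w = red τ Q) :
    pointG σ τ (P, Q) - c ∈ spaceG σ τ ι ι' := by
  refine Submodule.subset_span ⟨redCycle σ P, redCycle τ Q, ?_, ?_, ?_, ?_, ?_⟩
  · rw [← dg_eq, dg_redCycle]
  · rw [← dg_eq, dg_redCycle]
  · obtain ⟨v, hv⟩ := hP
    exact ⟨v, by rw [hv, mk_redCycle]⟩
  · obtain ⟨w, hw⟩ := hQ
    exact ⟨w, by rw [hw, mk_redCycle]⟩
  · rw [clG_cross c, dg_redCycle, zero_mul, zero_smul, add_zero, ← FG_mk, mk_redCycle,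
      mk_redCycle, FG_red h]

/-- the bilinear form of a functional -/
noncomputable def phiG (h : IsCentral σ τ c) (ι : V →ₗ[ℚ] PicQ k K) (ι' : V' →ₗ[ℚ] PicQ k L) :
    Dual ℚ (MG σ τ c ι ι') →ₗ[ℚ] FormsG σ τ c ι ι' where
  toFun l := ⟨(gM σ τ c ι ι').compr₂ l, Submodule.subset_span (by
    refine ⟨fun g x x' y y' hx hy => ?_, fun x y P Q hx hy hr => ?_⟩
    · change l (gM σ τ c ι ι' x' y') = l (gM σ τ c ι ι' x y)
      congr 1
      apply Subtype.ext
      change FG σ τ c (ι x') (ι' y') = FG σ τ c (ι x) (ι' y)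
      rw [hx, hy, FG_act]
    · change l (gM σ τ c ι ι' x y) = 0
      have : gM σ τ c ι ι' x y = 0 := Subtype.ext (by
        change FG σ τ c (ι x) (ι' y) = 0
        rw [hx, hy, FG_red h, hr, sub_self])
      rw [this, map_zero])⟩
  map_add' l l' := rfl
  map_smul' c l := rfl

lemma phiG_injective (h : IsCentral σ τ c) (ι : V →ₗ[ℚ] PicQ k K) (ι' : V' →ₗ[ℚ] PicQ k L) :
    Function.Injective (phiG h ι ι') := by
  rw [injective_iff_map_eq_zero]
  intro l hl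
  have h1 : ∀ (x : V) (y : V'), l ⟨gV σ τ c ι ι' x y, gV_mem ι ι' x y⟩ = 0 := by
    intro x y
    have h2 := congrArg (fun b : FormsG σ τ c ι ι' => (b : V →ₗ[ℚ] V' →ₗ[ℚ] ℚ) x y) hl
    exact h2
  have h3 : MG σ τ c ι ι' ≤ (LinearMap.ker l).map (MG σ τ c ι ι').subtype := by
    conv_lhs => unfold MG
    rw [Submodule.map₂_le]
    intro x _ y _
    exact ⟨⟨gV σ τ c ι ι' x y, gV_mem ι ι' x y⟩, h1 x y, rfl⟩
  apply LinearMap.ext
  intro a
  obtain ⟨a', ha', he⟩ := h3 a.2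
  have : a' = a := Subtype.ext he
  rw [← this]
  exact ha'

theorem mainG (h : IsCentral σ τ c) [FiniteDimensional ℚ V] [FiniteDimensional ℚ V']
    (ι : V →ₗ[ℚ] PicQ k K) (ι' : V' →ₗ[ℚ] PicQ k L) :
    FiniteDimensional ℚ (spaceG σ τ ι ι') ∧
      finrank ℚ (spaceG σ τ ι ι') ≤ finrank ℚ (FormsG σ τ c ι ι') := by
  have hV : (⊤ : Submodule ℚ V).FG := Module.finite_def.1 inferInstance
  have hV' : (⊤ : Submodule ℚ V').FG := Module.finite_def.1 inferInstance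
  have hM : FiniteDimensional ℚ (MG σ τ c ι ι') :=
    (Submodule.fg_iff_finiteDimensional _).1 (Submodule.FG.map₂ _ hV hV')
  have hle := spaceG_le (σ := σ) (τ := τ) (c := c) ι ι'
  have h1 : FiniteDimensional ℚ (spaceG σ τ ι ι') :=
    Submodule.finiteDimensional_of_le hle
  refine ⟨h1, (Submodule.finrank_mono hle).trans ?_⟩
  rw [← Subspace.dual_finrank_eq]
  exact LinearMap.finrank_le_finrank_of_injective (phiG_injective h ι ι')

end

end Pool.Agent.Q70.KM
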